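import Pool.Agent.Helper52.SM.Goals
import Pool.Agent.Helper12.SX.CNV
import Pool.Agent.Helper78.DT.Av

/-!
# SM-TUP: the tuple of an algorithm
-/

set_option autoImplicit false

namespace Pool.Agent.Helper97.SM

open Pool.Agent.Helper81.CC Pool.Agent.Helper78.DT Pool.Agent.Helper51.ZP Pool.Agent.Helper65.CS
open Pool.Agent.Helper52.SX (Tup ixv tv fract NFT)
open Pool.Agent.Helper52.SM
open Pool.Agent.Helper12.SX (ixv_append ixv_lt ixv_all ixv_not)
open Pool.Agent.Helper78
open scoped Classical

theorem ixv_bits {n : ℕ} (y : Fin n → Bool) (L : List DList) :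
    (List.range L.length).map (fun j => (ixv y L).testBit j) = L.map (DList.val y) := by
  induction L with
  | nil => simp
  | cons F L ih =>
    rw [List.length_cons, List.range_succ_eq_map, List.map_cons, List.map_map, List.map_cons]
    have h0 : (ixv y (F :: L)).testBit 0 = DList.val y F := by
      simp only [ixv, Nat.testBit_zero]
      by_cases h : DList.val y F = true
      · simp [h]
      · have h' : DList.val y F = false := by simpa using h
        simp [h']
    have h1 : ∀ j, (ixv y (F :: L)).testBit (j + 1) = (ixv y L).testBit j := by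
      intro j
      rw [Nat.testBit_succ]
      congr 1
      simp only [ixv]
      split_ifs <;> omega
    rw [h0]
    congr 1
    rw [← ih]
    exact List.map_congr_left fun j _ => h1 j

/-- **TUP.** -/
theorem tup (hT : ThrStmt) : TupStmt := by
  intro A c x s ε l hs hs' hε hl
  have h := fun j : ℕ => hT (fun z => A.act (j, z)) c x (A.m x) (A.T x) s ε hs hs' hε
  choose V O hV hO hVl hOl hval hpr using h
  set r := A.r x with hr
  set LV : List DList := (List.range r).map V with hLV
  set LO : List DList := (List.range r).map O with hLO
  have hLVl : LV.length = r := by simp [hLV]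
  have hLOl : LO.length = r := by simp [hLO]
  have h4 : (4 : ℕ) ^ r = 2 ^ r * 2 ^ r := by
    rw [← mul_pow]; norm_num
  refine ⟨(LV ++ LO, List.replicate (4 ^ r - 2 ^ r) false ++ (List.range (2 ^ r)).map fun q =>
    A.out (x, (List.range r).map fun j => q.testBit j)), ?_, ?_, ?_, ?_⟩
  · intro F hF
    rcases List.mem_append.1 hF with hF | hF
    · obtain ⟨j, _, rfl⟩ := List.mem_map.1 hF
      exact ⟨hV j, by exact_mod_cast (hVl j).trans hl⟩
    · obtain ⟨j, _, rfl⟩ := List.mem_map.1 hF
      exact ⟨hO j, by exact_mod_cast (hOl j).trans hl⟩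
  · simp [hLVl, hLOl]; omega
  all_goals
    have hres : ∀ y : Fin (A.m x) → Bool, (∀ j < r, DList.val y (O j) = true) →
        tv y (LV ++ LO, List.replicate (4 ^ r - 2 ^ r) false ++ (List.range (2 ^ r)).map fun q =>
          A.out (x, (List.range r).map fun j => q.testBit j)) =
        A.out (x, PM.results A c x (ov s (PM.coins y))) := by
      intro y hy
      have h2 : ixv y LO + 1 = 2 ^ r := by
        have := ixv_all y LO (by
          intro F hF
          obtain ⟨j, hj, rfl⟩ := List.mem_map.1 hF
          exact hy j (List.mem_range.1 hj))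
        rwa [hLOl] at this
      have h1 : ixv y (LV ++ LO) = (4 ^ r - 2 ^ r) + ixv y LV := by
        rw [ixv_append, hLVl, h4]
        have h5 : ixv y LO = 2 ^ r - 1 := by omega
        rw [h5, Nat.mul_sub, mul_one]
        omega
      have h3 : ixv y LV < 2 ^ r := by
        have := ixv_lt y LV
        rwa [hLVl] at this
      unfold tv
      simp only [h1]
      rw [List.getD_append_right _ _ _ _ (by simp)]
      rw [List.length_replicate, Nat.add_sub_cancel_left, List.getD_eq_getElem _ _ (by simpa using h3)]
      simp only [List.getElem_map, List.getElem_range]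
      congr 2
      have h6 := ixv_bits y LV
      rw [hLVl] at h6
      rw [h6, hLV, List.map_map]
      unfold PM.results
      refine List.map_congr_left fun j hj => ?_
      exact hval j y (hy j (List.mem_range.1 hj))
    have hnot : ∀ y : Fin (A.m x) → Bool, (∃ j < r, DList.val y (O j) = false) →
        tv y (LV ++ LO, List.replicate (4 ^ r - 2 ^ r) false ++ (List.range (2 ^ r)).map fun q =>
          A.out (x, (List.range r).map fun j => q.testBit j)) = false := by
      rintro y ⟨j, hj, hv⟩
      have h2 : ixv y LO + 2 ≤ 2 ^ r := by
        have := ixv_not y LO ⟨O j, List.mem_map.2 ⟨j, List.mem_range.2 hj, rfl⟩, hv⟩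
        rwa [hLOl] at this
      have h3 : ixv y LV < 2 ^ r := by
        have := ixv_lt y LV
        rwa [hLVl] at this
      have h1 : ixv y (LV ++ LO) < 4 ^ r - 2 ^ r := by
        rw [ixv_append, hLVl, h4]
        have h5 : 2 ^ r * (ixv y LO + 2) ≤ 2 ^ r * 2 ^ r := Nat.mul_le_mul_left _ h2
        rw [mul_add] at h5
        omega
      unfold tv
      rw [List.getD_append _ _ _ _ (by simpa using h1)]
      rw [List.getD_eq_getElem _ _ (by simpa using h1)]
      simp
    have hdich : ∀ y : Fin (A.m x) → Bool, (∀ j < r, DList.val y (O j) = true) ∨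
        ∃ j < r, DList.val y (O j) = false := by
      intro y
      by_cases h : ∀ j < r, DList.val y (O j) = true
      · exact Or.inl h
      · push Not at h
        obtain ⟨j, hj, hv⟩ := h
        exact Or.inr ⟨j, hj, by simpa using hv⟩
  · intro y hy
    rcases hdich y with h | h
    · rw [← hres y h]; exact hy
    · rw [hnot y h] at hy
      exact absurd hy (by simp)
  · have h1 : phi A c x s ≤ pr (fun y : Fin (A.m x) → Bool => tv y (LV ++ LO,
        List.replicate (4 ^ r - 2 ^ r) false ++ (List.range (2 ^ r)).map fun q =>
          A.out (x, (List.range r).map fun j => q.testBit j)) = true) +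
        pr (fun y : Fin (A.m x) → Bool => ∃ j ∈ Finset.range r, DList.val y (O j) = false) := by
      unfold phi
      refine pr_le_add_of_imp fun y hy => ?_
      rcases hdich y with h | h
      · left; rw [hres y h]; exact hy
      · right
        obtain ⟨j, hj, hv⟩ := h
        exact ⟨j, Finset.mem_range.2 hj, hv⟩
    have h2 : pr (fun y : Fin (A.m x) → Bool => ∃ j ∈ Finset.range r, DList.val y (O j) = false) ≤
        r * (√ε * 4 ^ (2 * PM.bd c x)) := by
      refine (pr_exists_le _ _).trans ?_
      refine (Finset.sum_le_sum fun j _ => hpr j).trans ?_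
      rw [Finset.sum_const, Finset.card_range, nsmul_eq_mul]
    have h3 : pr (fun y : Fin (A.m x) → Bool => tv y (LV ++ LO,
        List.replicate (4 ^ r - 2 ^ r) false ++ (List.range (2 ^ r)).map fun q =>
          A.out (x, (List.range r).map fun j => q.testBit j)) = true) =
        fract (A.m x) (LV ++ LO,
        List.replicate (4 ^ r - 2 ^ r) false ++ (List.range (2 ^ r)).map fun q =>
          A.out (x, (List.range r).map fun j => q.testBit j)) := by
      rw [pr_eq_card]
      unfold fract
      rw [show (Fintype.card (Fin (A.m x) → Bool) : ℝ) = 2 ^ A.m x by simp]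
    rw [h3] at h1
    linarith

end Pool.Agent.Helper97.SM
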