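import Pool.Agent.Helper73.SM.GoalsK

/-!
# Packet KR-KKY: the key inequality
-/

set_option autoImplicit false

namespace Pool.Agent.Helper97.SM

open Finset Pool.Agent.Helper73.SM

/-- logarithm of a number whose prime factors are in `S` -/
theorem log_eq {a : ℕ} (ha : a ≠ 0) {S : Finset ℕ} (hS : ∀ p, p.Prime → p ∣ a → p ∈ S)
    (hSp : ∀ p ∈ S, p.Prime) :
    Real.log a = ∑ p ∈ S, (padicValNat p a : ℝ) * Real.log p := by
  have h1 : Real.log a = ∑ p ∈ a.primeFactors, (a.factorization p : ℝ) * Real.log p :=
    Real.log_nat_eq_sum_factorization a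
  rw [h1]
  have h2 : ∑ p ∈ a.primeFactors, (a.factorization p : ℝ) * Real.log p =
      ∑ p ∈ S, (a.factorization p : ℝ) * Real.log p := by
    apply Finset.sum_subset
    · intro p hp
      rw [Nat.mem_primeFactors] at hp
      exact hS p hp.1 hp.2.1
    · intro p hp hp2
      have : a.factorization p = 0 := by
        rw [Nat.mem_primeFactors] at hp2
        apply Nat.factorization_eq_zero_of_not_dvd
        intro h
        exact hp2 ⟨hSp p hp, h, ha⟩
      rw [this]
      simp
  rw [h2]
  apply Finset.sum_congr rfl
  intro p hp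
  rw [Nat.factorization_def _ (hSp p hp)]

theorem goalKKY (hKDT : StmtKDT) (hKVD : StmtKVD) (hKCP : StmtKCP) (hKPK : StmtKPK)
    (hKSM : StmtKSM) (hKLL : StmtKLL) : StmtKKY := by
  classical
  intro k m n N M hok hN hM hnM hDG
  obtain ⟨hk3, hm1, hmk, hcop⟩ := hok
  have hok : Ok k m := ⟨hk3, hm1, hmk, hcop⟩
  have hDpos : 1 ≤ DK k m n := hKDT.pos k m n hm1 hmk
  obtain ⟨D, hD⟩ : ∃ D : ℕ, DK k m n = D := ⟨(DK k m n).toNat, by omega⟩
  set G := GK k m n (N : ℤ) with hG
  set G' := GK k m (n + 1) (N : ℤ) with hG'
  have hD1 : 1 ≤ D := by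
    rw [hD] at hDpos
    exact_mod_cast hDpos
  have hGG : G * G' ∣ D := by
    have hdet := hKDT.det k m n N hm1 hmk hN
    rw [hD] at hdet
    have a1 : (G : ℤ) ∣ PK k (m : ℤ) n N := Int.gcd_dvd_left _ _
    have a2 : (G : ℤ) ∣ PK k (-(m : ℤ)) n N := Int.gcd_dvd_right _ _
    have a3 : (G' : ℤ) ∣ PK k (m : ℤ) (n + 1) N := Int.gcd_dvd_left _ _
    have a4 : (G' : ℤ) ∣ PK k (-(m : ℤ)) (n + 1) N := Int.gcd_dvd_right _ _
    have h1 : ((G * G' : ℕ) : ℤ) ∣ (D : ℤ) := by
      rw [← hdet]
      push_cast
      apply dvd_sub
      · rw [mul_comm (G : ℤ)]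
        exact mul_dvd_mul a3 a2
      · exact mul_dvd_mul a1 a4
    exact_mod_cast h1
  have hD0 : D ≠ 0 := by omega
  have hGG0 : G * G' ≠ 0 := by
    intro h
    rw [h] at hGG
    exact hD0 (Nat.eq_zero_of_zero_dvd hGG)
  have hG0 : G ≠ 0 := fun h => hGG0 (by rw [h, zero_mul])
  have hG'0 : G' ≠ 0 := fun h => hGG0 (by rw [h, mul_zero])
  have hGD : G ∣ D := (Dvd.intro _ rfl).trans hGG
  have hvD : ∀ p, padicValInt p (DK k m n) = padicValNat p D := by
    intro p
    rw [hD]
    exact padicValInt.of_nat
  let S : Finset ℕ := (range (k * n + k + 1)).filter Nat.Prime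
  have hSp : ∀ p ∈ S, p.Prime := fun p hp => (mem_filter.1 hp).2
  have hSle : ∀ p ∈ S, p ≤ k * n + k := by
    intro p hp
    have := mem_range.1 (mem_filter.1 hp).1
    omega
  have hSD : ∀ p, p.Prime → p ∣ D → p ∈ S := by
    intro p hp hpD
    have h1 : (p : ℤ) ∣ DK k m n := by
      rw [hD]
      exact_mod_cast hpD
    have := hKSM.le k m n p hok hp h1
    exact mem_filter.2 ⟨mem_range.2 (by omega), hp⟩
  have hlogD := log_eq hD0 hSD hSp
  have hlogG := log_eq hG0 (fun p hp h => hSD p hp (h.trans hGD)) hSp
  have hlogn := log_eq (a := n + 1) (by omega) (S := S) (fun p hp h => by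
    have h1 := Nat.le_of_dvd (by omega) h
    have h2 : n + 1 ≤ k * n + k := by nlinarith
    exact mem_filter.2 ⟨mem_range.2 (by omega), hp⟩) hSp
  have hlt : Real.log D < 2 * Real.log G := by
    have h1 : (D : ℝ) < (G : ℝ) ^ 2 := by
      rw [hD] at hDG
      exact_mod_cast hDG
    have h2 : (0 : ℝ) < D := by exact_mod_cast hD1
    have h3 := Real.log_lt_log h2 h1
    rw [Real.log_pow] at h3
    exact_mod_cast h3
  have hlog0 : ∀ p ∈ S, 0 ≤ Real.log p := fun p hp =>
    Real.log_natCast_nonneg p
  set L := Real.log (2 * k * (k * n + k) ^ 2) with hL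
  have hX1 : n + 1 ≤ 2 * k * (k * n + k) ^ 2 := by
    have h2 : n + 1 ≤ k * n + k := by nlinarith
    have h3 : k * n + k ≤ (k * n + k) ^ 2 := Nat.le_self_pow (by norm_num) _
    have h4 : (k * n + k) ^ 2 ≤ 2 * k * (k * n + k) ^ 2 := Nat.le_mul_of_pos_left _ (by omega)
    omega
  have hLn : Real.log ((n + 1 : ℕ) : ℝ) ≤ L := by
    rw [hL]
    apply Real.log_le_log
    · positivity
    · exact_mod_cast hX1
  have hL0 : 0 ≤ L := le_trans (Real.log_natCast_nonneg _) hLn
  -- the estimate for one prime
  have hvle : ∀ p ∈ S, padicValNat p G + padicValNat p G' ≤ padicValNat p D := by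
    intro p hp
    haveI : Fact p.Prime := ⟨hSp p hp⟩
    rw [← padicValNat.mul hG0 hG'0]
    exact (padicValNat_dvd_iff_le hD0).1 (pow_padicValNat_dvd.trans hGG)
  have hnotRK : ∀ p, ¬ (M < p ∧ ¬ p ∣ n + 1) → p ∉ RK k m n M := by
    intro p hp h
    rw [RK, mem_filter, mem_Ioc] at h
    exact hp ⟨h.1.1, h.2.2.1⟩
  have hone : ∀ p ∈ S, (2 * (padicValNat p G : ℝ) - padicValNat p D) * Real.log p ≤
      (padicValNat p (n + 1) : ℝ) * Real.log p + (if p ≤ M ∨ p ∣ n + 1 then L else 0) +
        (if p ∈ RK k m n M then (if p ∣ G then Real.log p else - Real.log p) else 0) := by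
    intro p hp
    have hpp := hSp p hp
    haveI : Fact p.Prime := ⟨hpp⟩
    have hlp := hlog0 p hp
    have hle := hvle p hp
    have hn0 : 0 ≤ (padicValNat p (n + 1) : ℝ) * Real.log p := by positivity
    by_cases hpk : p ∣ k
    · have hpM : p ≤ M := by
        have := Nat.le_of_dvd (by omega) hpk
        omega
      rw [if_pos (Or.inl hpM), if_neg (hnotRK p (by omega))]
      have h1 := hKPK k m n p N hok hpp hpk hN
      rw [hvD] at h1
      have h2 : 2 * (padicValNat p G : ℝ) ≤ padicValNat p D + padicValNat p (n + 1) := by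
        exact_mod_cast h1
      have h3 : (2 * (padicValNat p G : ℝ) - padicValNat p D) * Real.log p ≤
          (padicValNat p (n + 1) : ℝ) * Real.log p :=
        mul_le_mul_of_nonneg_right (by linarith) hlp
      linarith
    · by_cases hc : p ≤ M ∨ p ∣ n + 1
      · rw [if_pos hc, if_neg (hnotRK p (by
          rintro ⟨h1, h2⟩
          rcases hc with hc | hc
          · omega
          · exact h2 hc))]
        have h1 := hKSM.pow k m n p hok hpp hpk
        rw [hvD] at h1
        have h2 : (padicValNat p D : ℝ) * Real.log p ≤ L := by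
          rw [← Real.log_pow, hL]
          apply Real.log_le_log
          · have : (0 : ℝ) < p := by exact_mod_cast hpp.pos
            positivity
          · exact_mod_cast h1
        have h3 : (padicValNat p G : ℝ) ≤ padicValNat p D := by
          have : padicValNat p G ≤ padicValNat p D := by omega
          exact_mod_cast this
        have h4 : (2 * (padicValNat p G : ℝ) - padicValNat p D) * Real.log p ≤
            (padicValNat p D : ℝ) * Real.log p :=
          mul_le_mul_of_nonneg_right (by linarith) hlp
        linarith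
      · rw [if_neg hc]
        push Not at hc
        have h2k : 2 * k < p := by omega
        have hp2 : k * n + 2 * k < p ^ 2 :=
          lt_of_lt_of_le hnM (Nat.pow_le_pow_left (by omega) 2)
        obtain ⟨l, hl, -, -⟩ := hKLL k m p hok hpp h2k
        have hv := hKVD k m n p l hok hpp h2k (by omega) hc.2 hl
        rw [hvD] at hv
        have hmod := Nat.mod_lt n hpp.pos
        -- membership in RK means valuation 1
        have hRKv : p ∈ RK k m n M → padicValNat p D = 1 := by
          intro h
          rw [RK, mem_filter] at h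
          obtain ⟨-, -, -, l', hl', h1, h2⟩ := h
          have hv' := hKVD k m n p l' hok hpp h2k (by omega) hc.2 hl'
          rw [hvD, if_pos h1, if_neg (by omega)] at hv'
          exact hv'
        have hl2 := hl.2.1
        by_cases hA : n % p < l
        · rw [if_neg (by omega), if_neg (by omega)] at hv
          have hR : p ∉ RK k m n M := by
            intro h
            have := hRKv h
            omega
          rw [if_neg hR]
          have h1 : padicValNat p G = 0 := by omega
          rw [h1, hv]
          simp only [add_zero, Nat.cast_zero, mul_zero, sub_self, zero_mul]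
          exact hn0
        · by_cases hB : n % p + l < p
          · rw [if_pos (by omega), if_neg (by omega)] at hv
            have hR : p ∈ RK k m n M := by
              rw [RK, mem_filter, mem_Ioc]
              exact ⟨⟨hc.1, hSle p hp⟩, hpp, hc.2, l, hl, by omega, hB⟩
            rw [if_pos hR, hv]
            by_cases hpG : p ∣ G
            · have h1 : padicValNat p G ≤ 1 := by omega
              have h2 : (padicValNat p G : ℝ) ≤ 1 := by exact_mod_cast h1
              rw [if_pos hpG]
              push_cast
              nlinarith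
            · have h1 : padicValNat p G = 0 := padicValNat.eq_zero_of_not_dvd hpG
              rw [if_neg hpG, h1]
              push_cast
              linarith
          · rw [if_pos (by omega), if_pos (by omega)] at hv
            have hR : p ∉ RK k m n M := by
              intro h
              have := hRKv h
              omega
            rw [if_neg hR]
            have hmod1 : (n + 1) % p = n % p + 1 := by
              have h1 : n % p + 1 < p := by
                by_contra h2
                have h3 : n % p + 1 = p := by omega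
                apply hc.2
                have h4 : n + 1 = p * (n / p) + (n % p + 1) := by
                  have := Nat.div_add_mod n p
                  omega
                rw [h4, h3]
                exact dvd_add (dvd_mul_right _ _) dvd_rfl
              rw [Nat.add_mod, Nat.mod_eq_of_lt (show 1 < p by omega), Nat.mod_eq_of_lt h1]
            have hcp := hKCP k m (n + 1) p l hok hpp h2k (by
              rw [mul_add, mul_one]
              omega) hl (by omega) (N : ℤ)
            have hpG' : p ∣ G' := by
              have h1 : (p : ℤ) ∣ (G' : ℤ) := Int.dvd_coe_gcd hcp.1 hcp.2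
              exact_mod_cast h1
            have h1 : 1 ≤ padicValNat p G' := one_le_padicValNat_of_dvd hG'0 hpG'
            have h2 : padicValNat p G ≤ 1 := by omega
            have h3 : (padicValNat p G : ℝ) ≤ 1 := by exact_mod_cast h2
            rw [hv]
            push_cast
            nlinarith
  -- the sum
  have hsum := Finset.sum_le_sum hone
  rw [Finset.sum_add_distrib, Finset.sum_add_distrib, ← hlogn] at hsum
  have hleft : ∑ p ∈ S, (2 * (padicValNat p G : ℝ) - padicValNat p D) * Real.log p =
      2 * Real.log G - Real.log D := by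
    rw [hlogG, hlogD, Finset.mul_sum, ← Finset.sum_sub_distrib]
    apply Finset.sum_congr rfl
    intro p _
    ring
  rw [hleft] at hsum
  have hmid : ∑ p ∈ S, (if p ≤ M ∨ p ∣ n + 1 then L else 0) ≤
      ((Nat.primeCounting M : ℝ) + 1) * L := by
    rw [← Finset.sum_filter, Finset.sum_const, nsmul_eq_mul]
    apply mul_le_mul_of_nonneg_right _ hL0
    have hsub : S.filter (fun p => p ≤ M ∨ p ∣ n + 1) ⊆
        ((range (M + 1)).filter Nat.Prime) ∪ S.filter (fun p => M < p ∧ p ∣ n + 1) := by
      intro p hp
      rw [mem_filter] at hp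
      rw [mem_union, mem_filter, mem_filter, mem_range]
      by_cases h : p ≤ M
      · exact Or.inl ⟨by omega, hSp p hp.1⟩
      · right
        rcases hp.2 with h2 | h2
        · exact absurd h2 h
        · exact ⟨hp.1, by omega, h2⟩
    have hc1 : ((range (M + 1)).filter Nat.Prime).card = Nat.primeCounting M := by
      rw [Nat.primeCounting, Nat.primeCounting', Nat.count_eq_card_filter_range]
    have hc2 : (S.filter (fun p => M < p ∧ p ∣ n + 1)).card ≤ 1 := by
      rw [Finset.card_le_one]
      intro p hp q hq
      rw [mem_filter] at hp hq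
      by_contra hne
      have h1 : Nat.Coprime p q := (Nat.coprime_primes (hSp p hp.1) (hSp q hq.1)).2 hne
      have h2 : p * q ∣ n + 1 := Nat.Coprime.mul_dvd_of_dvd_of_dvd h1 hp.2.2 hq.2.2
      have h3 := Nat.le_of_dvd (by omega) h2
      have h4 : (M + 1) * (M + 1) ≤ p * q := Nat.mul_le_mul (by omega) (by omega)
      have h5 : n + 1 ≤ k * n + 2 * k := by nlinarith
      rw [pow_two] at hnM
      omega
    have h6 : (S.filter (fun p => p ≤ M ∨ p ∣ n + 1)).card ≤ Nat.primeCounting M + 1 := by
      refine (Finset.card_le_card hsub).trans ((Finset.card_union_le _ _).trans ?_)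
      omega
    exact_mod_cast h6
  have hRKS : RK k m n M ⊆ S := by
    intro p hp
    rw [RK, mem_filter, mem_Ioc] at hp
    exact mem_filter.2 ⟨mem_range.2 (by omega), hp.2.1⟩
  have hright : ∑ p ∈ S, (if p ∈ RK k m n M then (if p ∣ G then Real.log p else - Real.log p)
      else 0) = 2 * ∑ p ∈ (RK k m n M).filter (fun p => p ∣ G), Real.log p -
        ∑ p ∈ RK k m n M, Real.log p := by
    rw [← Finset.sum_filter]
    have e1 : S.filter (fun p => p ∈ RK k m n M) = RK k m n M := by
      ext p
      rw [mem_filter]
      exact ⟨fun h => h.2, fun h => ⟨hRKS h, h⟩⟩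
    rw [e1, Finset.sum_filter, Finset.mul_sum, ← Finset.sum_sub_distrib]
    apply Finset.sum_congr rfl
    intro p _
    by_cases h : p ∣ G
    · rw [if_pos h, if_pos h]; ring
    · rw [if_neg h, if_neg h]; ring
  rw [hright] at hsum
  have e2 : ((Nat.primeCounting M : ℝ) + 2) * L = ((Nat.primeCounting M : ℝ) + 1) * L + L := by ring
  rw [e2]
  linarith

end Pool.Agent.Helper97.SM
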